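import Mathlib

/-!
A connected 2-terminal graph on nine vertices, different from the path `P_5`.
-/

namespace Pool.Agent.Results.MP_3d4fca_co.NineVertices

open SimpleGraph

/-- The `r`-ball of `v`: the vertices at distance at most `r` from `v` (the distance between
different components is infinite). -/
def ball {V : Type} (G : SimpleGraph V) (r : ℕ) (v : V) : Set V := {u | G.edist v u ≤ (r : ℕ∞)}

/-- No two distinct vertices have the same `r`-ball. -/
def TwinFree {V : Type} (G : SimpleGraph V) (r : ℕ) : Prop :=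
  ∀ u v : V, u ≠ v → ball G r u ≠ ball G r v

/-- The graph obtained by deleting the vertex `v`. -/
def del {V : Type} (G : SimpleGraph V) (v : V) : SimpleGraph ({v}ᶜ : Set V) := G.induce {v}ᶜ

/-- `G` is `r`-terminal: it is connected and `r`-twin-free, and no vertex-deleted subgraph is
`r`-twin-free. -/
def Terminal {V : Type} (G : SimpleGraph V) (r : ℕ) : Prop :=
  G.Connected ∧ TwinFree G r ∧ ∀ v : V, ¬ TwinFree (del G v) r

lemma mem_ball_two {V : Type} (G : SimpleGraph V) (v u : V) :
    u ∈ ball G 2 v ↔ (v = u ∨ G.Adj v u ∨ ∃ w, G.Adj v w ∧ G.Adj w u) := by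
  unfold ball
  constructor
  · intro h
    have h' : G.edist v u ≤ 2 := h
    have hne : G.edist v u ≠ ⊤ := by
      intro e
      rw [e] at h'
      exact absurd h' (by decide)
    obtain ⟨p, hp⟩ := SimpleGraph.exists_walk_of_edist_ne_top hne
    rw [← hp] at h'
    have hlen : p.length ≤ 2 := by exact_mod_cast h'
    match p, hlen with
    | .nil, _ => exact Or.inl rfl
    | .cons h .nil, _ => exact Or.inr (Or.inl h)
    | .cons h (.cons h2 .nil), _ => exact Or.inr (Or.inr ⟨_, h, h2⟩)
    | .cons h (.cons h2 (.cons h3 q)), hl =>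
      exfalso
      simp only [SimpleGraph.Walk.length_cons] at hl
      omega
  · rintro (rfl | h | ⟨w, h1, h2⟩)
    · change G.edist v v ≤ _
      simp
    · change G.edist v u ≤ _
      refine (SimpleGraph.edist_le (SimpleGraph.Walk.cons h SimpleGraph.Walk.nil)).trans ?_
      simp only [SimpleGraph.Walk.length_cons, SimpleGraph.Walk.length_nil]
      norm_num
    · change G.edist v u ≤ _
      refine (SimpleGraph.edist_le
        (SimpleGraph.Walk.cons h1 (SimpleGraph.Walk.cons h2 SimpleGraph.Walk.nil))).trans ?_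
      simp only [SimpleGraph.Walk.length_cons, SimpleGraph.Walk.length_nil]
      norm_num

/-- The edges of the graph. -/
def edges : List (ℕ × ℕ) :=
  [(2, 3), (0, 4), (1, 4), (1, 5), (2, 5), (0, 6), (1, 6), (5, 6), (1, 8), (2, 8), (5, 8), (7, 8)]

/-- The graph on nine vertices. -/
def G : SimpleGraph (Fin 9) where
  Adj u v := (u.1, v.1) ∈ edges ∨ (v.1, u.1) ∈ edges
  symm := ⟨fun _ _ h => h.symm⟩
  loopless := ⟨fun v h => by revert v; decide⟩

instance : DecidableRel G.Adj := fun u v => by
  change Decidable (_ ∨ _); infer_instance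

/-- Distance at most two inside the graph without the vertex `x`. -/
def near (x : Option (Fin 9)) (v u : Fin 9) : Prop :=
  v = u ∨ G.Adj v u ∨ ∃ w, x ≠ some w ∧ G.Adj v w ∧ G.Adj w u

instance (x : Option (Fin 9)) (v u : Fin 9) : Decidable (near x v u) := by
  unfold near; infer_instance

lemma connected_of {V : Type} (G : SimpleGraph V) (r : V) (f : V → V) (m : ℕ)
    (h : ∀ v, v = f v ∨ G.Adj v (f v)) (hr : ∀ v, f^[m] v = r) : G.Connected := by
  have key : ∀ m v, G.Reachable v (f^[m] v) := by
    intro m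
    induction m with
    | zero => intro v; exact SimpleGraph.Reachable.refl _
    | succ m ih =>
      intro v
      rw [Function.iterate_succ_apply]
      refine SimpleGraph.Reachable.trans ?_ (ih (f v))
      rcases h v with h | h
      · rw [← h]
      · exact h.reachable
  have : Nonempty V := ⟨r⟩
  refine SimpleGraph.Connected.mk ?_
  intro u v
  have hu := key m u
  have hv := key m v
  rw [hr] at hu hv
  exact hu.trans hv.symm

lemma twinfree : TwinFree G 2 := by
  intro u v huv h
  have key : ∀ u v : Fin 9, u ≠ v → ∃ w, ¬ (near none u w ↔ near none v w) := by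
    decide +kernel
  obtain ⟨w, hw⟩ := key u v huv
  apply hw
  have h1 : ∀ x y : Fin 9, near none x y ↔ y ∈ ball G 2 x := by
    intro x y
    rw [mem_ball_two]
    unfold near
    simp
  rw [h1, h1, h]

lemma not_twinfree (x : Fin 9) : ¬ TwinFree (del G x) 2 := by
  have key : ∀ x : Fin 9, ∃ u v : Fin 9, u ≠ x ∧ v ≠ x ∧ u ≠ v ∧
      ∀ w, w ≠ x → (near (some x) u w ↔ near (some x) v w) := by
    decide +kernel
  obtain ⟨u, v, hu, hv, huv, h⟩ := key x
  intro hT
  refine hT ⟨u, hu⟩ ⟨v, hv⟩ (fun e => huv (congrArg Subtype.val e)) ?_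
  have h1 : ∀ y z : ({x}ᶜ : Set (Fin 9)), near (some x) y.1 z.1 ↔ z ∈ ball (del G x) 2 y := by
    intro y z
    rw [mem_ball_two]
    unfold near del
    constructor
    · rintro (h | h | ⟨w, hw, h1, h2⟩)
      · exact Or.inl (Subtype.ext h)
      · exact Or.inr (Or.inl h)
      · exact Or.inr (Or.inr ⟨⟨w, fun e => hw (by rw [show w = x from e])⟩, h1, h2⟩)
    · rintro (h | h | ⟨⟨w, hw⟩, h1, h2⟩)
      · exact Or.inl (congrArg Subtype.val h)
      · exact Or.inr (Or.inl h)
      · refine Or.inr (Or.inr ⟨w, ?_, h1, h2⟩)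
        intro e
        exact hw (Option.some.inj e).symm
  ext z
  rw [← h1, ← h1]
  exact h z.1 z.2

/-- There is a connected 2-terminal graph, on nine vertices, which is not isomorphic to `P_5`. -/
theorem result : ∃ G : SimpleGraph (Fin 9), Terminal G 2 ∧ IsEmpty (G ≃g SimpleGraph.pathGraph 5) := by
  refine ⟨G, ⟨?_, twinfree, not_twinfree⟩, ?_⟩
  · exact connected_of G 1 ![4, 1, 5, 2, 1, 1, 1, 8, 1] 3 (by decide +kernel) (by decide +kernel)
  · refine ⟨fun e => ?_⟩
    have := Fintype.card_congr e.toEquiv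
    simp at this

end Pool.Agent.Results.MP_3d4fca_co.NineVertices
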